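import Pool.Agent.NBT.StmtsA
import Pool.Agent.NBT.StmtsM

/-!
# NBT (MP_e54c4c_gt), row ZMI: the zoom along `1_S` and the survival of moves
-/

set_option autoImplicit false

open Matrix Filter Topology

namespace Pool.Agent.NBT.H19

open Pool.Agent.NBT

theorem zmi (hZ : ZlxStmt) (hS : SxnStmt) (hA : ZmaStmt) (hB : ZmbStmt) : ZmiStmt := by
  intro n C Γ Γ₀ K T c hT w hw S θ hθ
  obtain ⟨φ, g, s, W, P, Q, hφ, hg, hs, hZL⟩ := hZ n C Γ Γ₀ K T c hT w hw S θ hθ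
  have hθφ : Tendsto (fun m => θ (φ m)) atTop atTop := hθ.comp hφ.tendsto_atTop
  refine ⟨φ, g, s, W, P, Q, hφ, hg, hs, hZL, ?_, ?_⟩
  · intro k x hx hk hall
    obtain ⟨i, hi⟩ := (hS n C Γ Γ₀ K T c hT w hw k x hx).1
    obtain ⟨h1, h2⟩ := hA n C Γ Γ₀ K T c hT w hw S _ g s W P Q hθφ hg hs hZL k x hx hk
      ⟨i, hall i hi, hi⟩
    exact ⟨h1, fun i => (h2 i).trans ⟨And.left, fun h => ⟨h, hall i h⟩⟩⟩
  · intro k x hx hk hall
    exact hB n C Γ Γ₀ K T c hT w hw S _ g s W P Q hθφ hg hs hZL k x hx hk hall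

end Pool.Agent.NBT.H19
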